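import Pool.Agent.H24.CL.TargetsK

/-!
# Row SL of clk_modules: the local count in a coset of `H k q 3` (helper79)
-/

set_option autoImplicit false

open Finset MeasureTheory
open Pool.Agent.H24.CL

namespace Pool.Agent.H79.CLK

lemma tor_sub {k : ℕ} (q r : ℕ) (n n' : Fin k → ℤ) :
    (tor q r n : X k) - tor q r n' = tor q r (fun i => n i - n' i) := by
  funext i
  simp only [tor, Pi.sub_apply]
  rw [← AddCircle.coe_sub]
  congr 1
  push_cast
  ring

/-- points with numerators divisible by `q` lie in the smaller group -/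
lemma tor_mem_H {k : ℕ} (q r : ℕ) (hq : 1 ≤ q) (n : Fin k → ℤ)
    (h : ∀ i, (q : ℤ) ∣ n i) : (tor q (r + 1) n : X k) ∈ H k q r := by
  have hq0 : (q : ℝ) ≠ 0 := by
    have : (1 : ℝ) ≤ q := by exact_mod_cast hq
    positivity
  simp only [H, AddMonoidHom.mem_ker, nsmulAddMonoidHom_apply]
  funext i
  obtain ⟨m, hm⟩ := h i
  simp only [Pi.smul_apply, Pi.zero_apply, tor]
  rw [← AddCircle.coe_nsmul, hm]
  have : (q ^ r) • ((((q : ℤ) * m : ℤ) : ℝ) / (q : ℝ) ^ (r + 1)) = (m : ℝ) := by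
    rw [nsmul_eq_mul]
    push_cast
    field_simp
    try ring
  rw [this]
  exact (AddCircle.coe_eq_zero_iff (1 : ℝ)).2 ⟨m, by simp⟩

/-- the two digits of `phi q b (tor q 3 n)` -/
def X0 {k : ℕ} (b : ℕ) (n : Fin k → ℤ) : ℤ :=
  ∑ j : Fin k, (Nat.choose (j.val + 1) 1 : ℤ) * (b : ℤ) ^ (j.val - 0) * n j

def X1 {k : ℕ} (b : ℕ) (n : Fin k → ℤ) : ℤ :=
  ∑ j : Fin k, (Nat.choose (j.val + 1) 2 : ℤ) * (b : ℤ) ^ (j.val - 1) * n j

lemma X0_cast {k q : ℕ} (b : ℕ) (n : Fin k → ℤ) :
    ((X0 b n : ℤ) : ZMod q) = Zvk (fun i => ((n i : ℤ) : ZMod q)) (b : ZMod q) := by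
  unfold X0 Zvk
  push_cast
  refine Finset.sum_congr rfl fun j _ => ?_
  simp [Nat.choose_one_right]

lemma X1_cast {k q : ℕ} (b : ℕ) (n : Fin k → ℤ) :
    ((X1 b n : ℤ) : ZMod q) = Zwk (fun i => ((n i : ℤ) : ZMod q)) (b : ZMod q) := by
  unfold X1 Zwk
  push_cast
  rfl

/-- the digits are determined by the point -/
lemma digits_unique (hTO : T_TO) {k q : ℕ} (hk : 3 ≤ k) (hq : 1 ≤ q) (b : ℕ) (n n' : Fin k → ℤ)
    (h : phi q b (tor q 3 n : X k) = phi q b (tor q 3 n')) :
    ((X0 b n : ℤ) : ZMod q) = ((X0 b n' : ℤ) : ZMod q) ∧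
    ((X1 b n : ℤ) : ZMod q) = ((X1 b n' : ℤ) : ZMod q) := by
  obtain ⟨-, -, -, htor, hphi, -⟩ := hTO k q hq
  have hq0 : (q : ℤ) ≠ 0 := by
    have : (1 : ℤ) ≤ q := by exact_mod_cast hq
    omega
  have h3 : (3 : ℕ) = 2 + 1 := rfl
  rw [h3, hphi 2 b n, hphi 2 b n', htor 2] at h
  constructor
  · have h0 := h ⟨0, by omega⟩
    simp only [pow_zero, one_mul, zero_add] at h0
    have h1 : ((q : ℤ)) ∣ X0 b n - X0 b n' := by
      refine dvd_trans (dvd_pow_self _ (by norm_num : (2 : ℕ) ≠ 0)) ?_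
      exact h0
    have := (ZMod.intCast_eq_intCast_iff_dvd_sub (X0 b n') (X0 b n) q).2 h1
    exact this.symm
  · have h0 := h ⟨1, by omega⟩
    simp only [pow_one] at h0
    have h1 : ((q : ℤ)) ∣ X1 b n - X1 b n' := by
      have h2 : (q : ℤ) ^ 2 ∣ q * (X1 b n - X1 b n') := by
        rw [mul_sub]
        exact h0
      rw [pow_two] at h2
      exact (mul_dvd_mul_iff_left hq0).1 h2
    have := (ZMod.intCast_eq_intCast_iff_dvd_sub (X1 b n') (X1 b n) q).2 h1
    exact this.symm

/-- two image points with the same first digit differ by a point of `H k q 1` -/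
lemma digits_same (hTO : T_TO) {k q : ℕ} (_hk : 3 ≤ k) (hq : 1 ≤ q) (b : ℕ) (n n' : Fin k → ℤ)
    (h : ((X0 b n : ℤ) : ZMod q) = ((X0 b n' : ℤ) : ZMod q)) :
    phi q b (tor q 3 n : X k) - phi q b (tor q 3 n') ∈ H k q 1 := by
  obtain ⟨-, -, -, htor, hphi, -⟩ := hTO k q hq
  have h3 : (3 : ℕ) = 2 + 1 := rfl
  rw [h3, hphi 2 b n, hphi 2 b n', tor_sub]
  refine tor_mem_H q 1 hq _ fun i => ?_
  rw [← mul_sub]
  rcases Nat.eq_zero_or_pos i.val with hi | hi
  · refine Dvd.dvd.mul_left ?_ _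
    have := (ZMod.intCast_eq_intCast_iff_dvd_sub (X0 b n') (X0 b n) q).1 h.symm
    rw [hi]
    exact this
  · exact Dvd.dvd.mul_right (dvd_pow_self _ (by omega)) _

open Classical in
/-- the pair of digits of a point -/
noncomputable def pr (k q b : ℕ) (a v : X k) : ZMod q × ZMod q :=
  if h : ∃ n : Fin k → ℤ, v = phi q b (a + tor q 3 n) then
    (((X0 b h.choose : ℤ) : ZMod q), ((X1 b h.choose : ℤ) : ZMod q)) else 0

lemma pr_eq (hTO : T_TO) {k q : ℕ} (hk : 3 ≤ k) (hq : 1 ≤ q) (b : ℕ) (a : X k) (n : Fin k → ℤ) :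
    pr k q b a (phi q b (a + tor q 3 n)) =
      (((X0 b n : ℤ) : ZMod q), ((X1 b n : ℤ) : ZMod q)) := by
  have hex : ∃ n' : Fin k → ℤ, phi q b (a + tor q 3 n) = phi q b (a + tor q 3 n') := ⟨n, rfl⟩
  unfold pr
  rw [dif_pos hex]
  have hs := hex.choose_spec
  have hs' : phi q b (tor q 3 n : X k) = phi q b (tor q 3 hex.choose) := by
    have h2 : phi q b a + phi q b (tor q 3 n) = phi q b a + phi q b (tor q 3 hex.choose) := by
      rw [← map_add, ← map_add]
      exact hs
    exact add_left_cancel h2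
  obtain ⟨h0, h1⟩ := digits_unique hTO hk hq b _ _ hs'
  rw [h0, h1]

open Classical in
/-- the image points in `V` -/
noncomputable def Vs (k q b : ℕ) (V : Set (X k)) (a : X k) : Finset (X k) :=
  ((HF k q 3).image fun h => phi q b (a + h)).filter fun v => v ∈ V

lemma cc_eq (k q b : ℕ) (V : Set (X k)) (a : X k) : cc k q 3 b V a = (Vs k q b V a).card := rfl

open Classical in
/-- the set of digit pairs -/
noncomputable def SS (k q : ℕ) (W V : Set (X k)) (a : X k) (b : ZMod q) :
    Finset (ZMod q × ZMod q) :=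
  if b.val ∈ Bs k q 3 W V a then (Vs k q b.val V a).image (pr k q b.val a) else ∅

lemma SS_card_le (k q : ℕ) (W V : Set (X k)) (a : X k) (b : ZMod q) :
    (SS k q W V a b).card ≤ if b.val ∈ Bs k q 3 W V a then cc k q 3 b.val V a else 0 := by
  unfold SS
  split_ifs with h
  · rw [cc_eq]
    exact card_image_le
  · simp

lemma Vs_mem (hTO : T_TO) {k q : ℕ} (hq : 1 ≤ q) {b : ℕ} {V : Set (X k)} {a v : X k}
    (hv : v ∈ Vs k q b V a) : v ∈ V ∧ ∃ n : Fin k → ℤ, v = phi q b (a + tor q 3 n) := by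
  classical
  obtain ⟨hH, hHF, -, -, -, -⟩ := hTO k q hq
  unfold Vs at hv
  rw [mem_filter, mem_image] at hv
  obtain ⟨⟨h, hh, rfl⟩, hV⟩ := hv
  refine ⟨hV, ?_⟩
  obtain ⟨n, hn⟩ := (hH 3 h).1 ((hHF 3 h).1 hh)
  exact ⟨n, by rw [hn]⟩

/-- the number of digit pairs of one column -/
lemma SS_card_le' (hTO : T_TO) {k q : ℕ} [NeZero q] (hk : 3 ≤ k) (hq : 1 ≤ q) (W V : Set (X k))
    (B : ℝ) (hB : 0 ≤ B) (hV : Cnt (H k q 1) V B) (a : X k) (b : ZMod q) :
    ((SS k q W V a b).card : ℝ) ≤ q * B := by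
  classical
  unfold SS
  split_ifs with h
  swap
  · simp only [card_empty, Nat.cast_zero]
    positivity
  · set S := (Vs k q b.val V a).image (pr k q b.val a) with hS
    have hfib : ∀ r : ZMod q, ((S.filter fun p => p.1 = r).card : ℝ) ≤ B := by
      intro r
      have hch : ∀ p ∈ S.filter (fun p => p.1 = r), ∃ v ∈ Vs k q b.val V a,
          pr k q b.val a v = p := by
        intro p hp
        rw [mem_filter, hS, mem_image] at hp
        exact hp.1
      choose! g hg1 hg2 using hch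
      have hinj : Set.InjOn g (S.filter fun p => p.1 = r : Finset (ZMod q × ZMod q)) := by
        intro p hp p' hp' he
        rw [← hg2 p (by exact_mod_cast hp), ← hg2 p' (by exact_mod_cast hp'), he]
      rw [← card_image_of_injOn hinj]
      refine hV _ ?_ ?_
      · intro y hy
        rw [mem_image] at hy
        obtain ⟨p, hp, rfl⟩ := hy
        exact (Vs_mem hTO hq (hg1 p hp)).1
      · intro y hy y' hy'
        rw [mem_image] at hy hy'
        obtain ⟨p, hp, rfl⟩ := hy
        obtain ⟨p', hp', rfl⟩ := hy'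
        obtain ⟨-, n, hn⟩ := Vs_mem hTO hq (hg1 p hp)
        obtain ⟨-, n', hn'⟩ := Vs_mem hTO hq (hg1 p' hp')
        have e1 := hg2 p hp
        have e2 := hg2 p' hp'
        rw [hn, pr_eq hTO hk hq] at e1
        rw [hn', pr_eq hTO hk hq] at e2
        have r1 : p.1 = r := (mem_filter.1 hp).2
        have r2 : p'.1 = r := (mem_filter.1 hp').2
        have h01 : ((X0 b.val n : ℤ) : ZMod q) = ((X0 b.val n' : ℤ) : ZMod q) := by
          have a1 := congrArg Prod.fst e1
          have a2 := congrArg Prod.fst e2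
          simp only at a1 a2
          rw [a1, a2, r1, r2]
        rw [hn, hn', map_add, map_add, add_sub_add_left_eq_sub]
        exact digits_same hTO hk hq b.val n n' h01
    have hsum : S.card = ∑ r : ZMod q, (S.filter fun p => p.1 = r).card :=
      card_eq_sum_card_fiberwise (fun p _ => by simp)
    rw [hsum]
    push_cast
    calc ∑ r : ZMod q, ((S.filter fun p => p.1 = r).card : ℝ) ≤ ∑ _r : ZMod q, B :=
          sum_le_sum fun r _ => hfib r
      _ = q * B := by
          rw [sum_const, card_univ, ZMod.card, nsmul_eq_mul]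

/-- the sum of the sizes over all columns -/
lemma SS_sum_le (k q : ℕ) [NeZero q] (W V : Set (X k)) (a : X k) :
    (∑ b : ZMod q, ((SS k q W V a b).card : ℝ)) ≤
      ∑ b ∈ Bs k q 3 W V a, (cc k q 3 b V a : ℝ) := by
  classical
  have h1 : (∑ b : ZMod q, ((SS k q W V a b).card : ℝ)) ≤
      ∑ b : ZMod q, if b.val ∈ Bs k q 3 W V a then (cc k q 3 b.val V a : ℝ) else 0 := by
    refine sum_le_sum fun b _ => ?_
    have := SS_card_le k q W V a b
    split_ifs at this ⊢ with h
    · exact_mod_cast this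
    · exact_mod_cast this
  refine h1.trans (le_of_eq ?_)
  rw [← sum_filter]
  refine sum_nbij (fun b : ZMod q => b.val) ?_ ?_ ?_ ?_
  · intro b hb
    exact (mem_filter.1 hb).2
  · intro b _ b' _ he
    exact ZMod.val_injective q he
  · intro b hb
    have hbq : b < q := by
      have : b ∈ Bs k q 3 W V a := by exact_mod_cast hb
      unfold Bs at this
      rw [mem_filter, mem_range] at this
      exact this.1
    refine ⟨(b : ZMod q), ?_, ?_⟩
    · simp only [coe_filter, mem_univ, true_and, Set.mem_ofPred_eq]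
      rw [ZMod.val_natCast_of_lt hbq]
      exact_mod_cast hb
    · exact ZMod.val_natCast_of_lt hbq
  · intro b _
    rfl

/-- representatives of the cosets of a subgroup -/
lemma reps {k : ℕ} (S : AddSubgroup (X k)) (W : Set (X k)) (F : ℝ)
    (hW : Cnt S W F) (Y : Finset (X k)) (hY : ∀ y ∈ Y, y ∈ W) :
    ∃ Y' : Finset (X k), Y' ⊆ Y ∧ (∀ y ∈ Y', ∀ y' ∈ Y', y - y' ∈ S → y = y') ∧
      (Y.card : ℝ) ≤ F * Y'.card := by
  classical
  set f : X k → X k ⧸ S := fun y => QuotientAddGroup.mk y with hf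
  have hch : ∀ z ∈ Y.image f, ∃ y ∈ Y, f y = z := by
    intro z hz
    rw [mem_image] at hz
    exact hz
  choose! g hg1 hg2 using hch
  have hinj : Set.InjOn g (Y.image f : Finset (X k ⧸ S)) := by
    intro z hz z' hz' he
    rw [← hg2 z (by exact_mod_cast hz), ← hg2 z' (by exact_mod_cast hz'), he]
  refine ⟨(Y.image f).image g, ?_, ?_, ?_⟩
  · intro y hy
    rw [mem_image] at hy
    obtain ⟨z, hz, rfl⟩ := hy
    exact hg1 z hz
  · intro y hy y' hy' hd
    rw [mem_image] at hy hy'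
    obtain ⟨z, hz, rfl⟩ := hy
    obtain ⟨z', hz', rfl⟩ := hy'
    have : f (g z) = f (g z') := by
      rw [hf]
      simp only
      rw [QuotientAddGroup.eq]
      have : -(g z) + g z' = -(g z - g z') := by abel
      rw [this]
      exact S.neg_mem hd
    rw [hg2 z hz, hg2 z' hz'] at this
    rw [this]
  · rw [card_image_of_injOn hinj]
    have hsum : Y.card = ∑ z ∈ Y.image f, (Y.filter fun y => f y = z).card :=
      card_eq_sum_card_fiberwise (fun y hy => by
        have : f y ∈ Y.image f := mem_image_of_mem f (by exact_mod_cast hy)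
        exact_mod_cast this)
    rw [hsum]
    push_cast
    calc ∑ z ∈ Y.image f, ((Y.filter fun y => f y = z).card : ℝ) ≤ ∑ _z ∈ Y.image f, F := by
          refine sum_le_sum fun z _ => ?_
          refine hW _ ?_ ?_
          · intro y hy
            exact hY y (mem_filter.1 hy).1
          · intro y hy y' hy'
            have h1 := (mem_filter.1 hy).2
            have h2 := (mem_filter.1 hy').2
            have h3 : f y' = f y := by rw [h1, h2]
            rw [hf] at h3
            simp only at h3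
            rw [QuotientAddGroup.eq] at h3
            have : y - y' = -y' + y := by abel
            rw [this]
            exact h3
      _ = F * (Y.image f).card := by
          rw [sum_const, nsmul_eq_mul, mul_comm]

theorem pf_SL (hTO : T_TO) (_hHM : TK_HM) (hJO : TK_JO) (hLS : TK_LS) : TK_SL := by
  classical
  intro k q hk hqp hkq W V n G F hn hG hF hVL hV1 hW1 hcar hn2 hn1 a Y hY
  have : Fact q.Prime := ⟨hqp⟩
  have : NeZero q := ⟨hqp.ne_zero⟩
  have hq1 : 1 ≤ q := hqp.one_lt.le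
  have hqR : (1 : ℝ) ≤ q := by exact_mod_cast hq1
  have hkR : (3 : ℝ) ≤ k := by exact_mod_cast hk
  obtain ⟨hH, hHF, -, -, -, -⟩ := hTO k q hq1
  -- the numerators
  have hex : ∀ y ∈ Y, ∃ w : Fin k → ℤ, y - a = tor q 3 w := fun y hy => (hH 3 (y - a)).1 (hY y hy).2
  choose! w hw using hex
  set cl : X k → (Fin k → ZMod q) := fun y i => ((w y i : ℤ) : ZMod q) with hcl
  have hcl2 : ∀ y ∈ Y, ∀ y' ∈ Y, cl y = cl y' → y - y' ∈ H k q 2 := by
    intro y hy y' hy' he
    have h1 : y - y' = tor q 3 (fun i => w y i - w y' i) := by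
      rw [← tor_sub, ← hw y hy, ← hw y' hy']
      abel
    rw [h1]
    refine tor_mem_H q 2 hq1 _ fun i => ?_
    have h2 := congrFun he i
    simp only [hcl] at h2
    exact (ZMod.intCast_eq_intCast_iff_dvd_sub (w y' i) (w y i) q).1 h2.symm
  -- Lemma S
  have hB0 : (0 : ℝ) ≤ (Nat.factorial k : ℝ) * G ^ k := by positivity
  have hS1 : (∑ b : ZMod q, ((SS k q W V a b).card : ℝ)) * 2 ≤ n * (q : ℝ) ^ 2 := by
    have h1 : (∑ b : ZMod q, ((SS k q W V a b).card : ℝ)) ≤
        ∑ _b : ZMod q, (q * ((Nat.factorial k : ℝ) * G ^ k)) :=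
      sum_le_sum fun b _ => SS_card_le' hTO hk hq1 W V _ hB0 hV1 a b
    rw [sum_const, card_univ, ZMod.card, nsmul_eq_mul] at h1
    calc (∑ b : ZMod q, ((SS k q W V a b).card : ℝ)) * 2
        ≤ (q * (q * ((Nat.factorial k : ℝ) * G ^ k))) * 2 := by linarith
      _ = (2 * (Nat.factorial k : ℝ) * G ^ k) * (q : ℝ) ^ 2 := by ring
      _ ≤ n * (q : ℝ) ^ 2 := by gcongr
  have hL := hLS k q hk hkq (SS k q W V a) (Y.image cl) n (by linarith) hS1 (by
    intro c hc
    rw [mem_image] at hc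
    obtain ⟨y, hy, rfl⟩ := hc
    obtain ⟨D, hD1, hD2, hD3⟩ := hcar y (hY y hy).1
    refine ⟨D.image (fun b : ℕ => ((b : ℕ) : ZMod q)), ?_, ?_⟩
    · rw [card_image_of_injOn]
      · exact hD3
      · intro b hb b' hb' he
        have h1 : b < q := mem_range.1 (hD1 (by exact_mod_cast hb))
        have h2 : b' < q := mem_range.1 (hD1 (by exact_mod_cast hb'))
        have h3 := congrArg ZMod.val he
        rwa [ZMod.val_natCast_of_lt h1, ZMod.val_natCast_of_lt h2] at h3
    · intro b' hb'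
      rw [mem_image] at hb'
      obtain ⟨b, hb, rfl⟩ := hb'
      have hbq : b < q := mem_range.1 (hD1 hb)
      have hval : ((b : ZMod q)).val = b := ZMod.val_natCast_of_lt hbq
      have hyw : y = a + tor q 3 (w y) := by
        rw [← hw y hy]
        abel
      have hBs : b ∈ Bs k q 3 W V a := by
        unfold Bs
        rw [mem_filter, mem_range]
        refine ⟨hbq, y - a, (hY y hy).2, ?_, ?_⟩
        · rw [add_sub_cancel]
          exact (hY y hy).1
        · rw [add_sub_cancel]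
          exact hD2 b hb
      unfold SS
      rw [hval, if_pos hBs, mem_image]
      refine ⟨phi q b y, ?_, ?_⟩
      · unfold Vs
        rw [mem_filter, mem_image]
        refine ⟨⟨y - a, (hHF 3 _).2 (hY y hy).2, ?_⟩, hD2 b hb⟩
        rw [add_sub_cancel]
      · conv_lhs => rw [hyw]
        rw [pr_eq hTO hk hq1, X0_cast, X1_cast])
  -- the bound in one class
  have hcls : ∀ c ∈ Y.image cl, n * ((Y.filter fun y => cl y = c).card : ℝ) ≤
      2 * (q * G) * F := by
    intro c hc
    rw [mem_image] at hc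
    obtain ⟨y₀, hy₀, rfl⟩ := hc
    obtain ⟨Y', hY1, hY2, hY3⟩ := reps (H k q 1) W F hW1 (Y.filter fun y => cl y = cl y₀)
      (fun y hy => (hY y (mem_filter.1 hy).1).1)
    obtain ⟨hj1, hj2⟩ := hJO k q (by omega) hqp hkq W V n G hn hG hVL hcar hn2 y₀
    have hj3 := hj2 Y' (fun y hy => by
      have h1 := mem_filter.1 (hY1 hy)
      exact ⟨(hY y h1.1).1, hcl2 y h1.1 y₀ hy₀ h1.2⟩) hY2
    have hF0 : (0 : ℝ) ≤ F := by linarith
    calc n * ((Y.filter fun y => cl y = cl y₀).card : ℝ) ≤ n * (F * Y'.card) := by gcongr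
      _ = (n * Y'.card) * F := by ring
      _ ≤ (2 * (q * G)) * F := by
          refine mul_le_mul_of_nonneg_right ?_ hF0
          linarith
  have hsum : (Y.card : ℝ) = ∑ c ∈ Y.image cl, ((Y.filter fun y => cl y = c).card : ℝ) := by
    have : Y.card = ∑ c ∈ Y.image cl, (Y.filter fun y => cl y = c).card :=
      card_eq_sum_card_fiberwise (fun y hy => by
        have : cl y ∈ Y.image cl := mem_image_of_mem cl (by exact_mod_cast hy)
        exact_mod_cast this)
    exact_mod_cast this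
  have htot : n * (Y.card : ℝ) ≤ ((Y.image cl).card : ℝ) * (2 * (q * G) * F) := by
    rw [hsum, mul_sum]
    calc ∑ c ∈ Y.image cl, n * ((Y.filter fun y => cl y = c).card : ℝ)
        ≤ ∑ _c ∈ Y.image cl, (2 * (q * G) * F) := sum_le_sum fun c hc => hcls c hc
      _ = ((Y.image cl).card : ℝ) * (2 * (q * G) * F) := by
          rw [sum_const, nsmul_eq_mul]
  have hcc := SS_sum_le k q W V a
  have hkk : (q : ℝ) ^ (k - 1) = (q : ℝ) ^ (k - 2) * q := by
    rw [← pow_succ]
    congr 1
    omega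
  have hk1 : (0 : ℝ) ≤ (k : ℝ) - 1 := by linarith
  calc n ^ 3 * (Y.card : ℝ) = n ^ 2 * (n * (Y.card : ℝ)) := by ring
    _ ≤ n ^ 2 * (((Y.image cl).card : ℝ) * (2 * (q * G) * F)) := by gcongr
    _ = (((Y.image cl).card : ℝ) * n ^ 2) * (2 * (q * G) * F) := by ring
    _ ≤ (4 * ((k : ℝ) - 1) * (q : ℝ) ^ (k - 2) *
          ∑ b : ZMod q, ((SS k q W V a b).card : ℝ)) * (2 * (q * G) * F) := by
        refine mul_le_mul_of_nonneg_right hL ?_
        positivity
    _ ≤ (4 * ((k : ℝ) - 1) * (q : ℝ) ^ (k - 2) *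
          ∑ b ∈ Bs k q 3 W V a, (cc k q 3 b V a : ℝ)) * (2 * (q * G) * F) := by
        refine mul_le_mul_of_nonneg_right ?_ (by positivity)
        exact mul_le_mul_of_nonneg_left hcc (by positivity)
    _ = 8 * ((k : ℝ) - 1) * F * G * (q : ℝ) ^ (k - 1) *
        ∑ b ∈ Bs k q 3 W V a, (cc k q 3 b V a : ℝ) := by
        rw [hkk]
        ring

end Pool.Agent.H79.CLK
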